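import Pool.Agent.Lib.MP_743d1e_nt.Statement

/-!
# Multiples of a product of monic factors: definitions

Polynomials in two variables are elements of `ℤ[X][X]`; the outer variable is `y`, the inner
variable is `x`.
-/

set_option autoImplicit false

namespace MP743d1e.FM

open scoped BigOperators
open Polynomial

/-- Evaluation of an integral polynomial in `x` and `y` (outer variable `y`, inner variable `x`). -/
noncomputable def ev {R : Type} [CommRing R] (x y : R) : ℤ[X][X] →+* R :=
  eval₂RingHom (eval₂RingHom (Int.castRingHom R) x) y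

/-- `K` is a field `k(x, y)` with `x` transcendental over `k` and `P(x, y) = 0`. -/
structure IsCurveP (k K : Type) [Field k] [Field K] [Algebra k K] (P : ℤ[X][X]) (x y : K) :
    Prop where
  transc : Transcendental k x
  gen : IntermediateField.adjoin k {x, y} = ⊤
  eqn : ev x y P = 0

/-- `P` as a polynomial over the field `k`. -/
noncomputable def mapK (k : Type) [Field k] (P : ℤ[X][X]) : k[X][X] :=
  P.map (mapRingHom (Int.castRingHom k))

/-- Distinct monic irreducible polynomials `f i`, `φ k` in `x` (`i < m`, `k < q`), distinct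
irreducible polynomials `G j` in `x` and `y` that are monic in `y` (`j < n`), such that each `G j`
has a simple root over some complex root of each `f i` and of each `φ k`. -/
structure Fac where
  m : ℕ
  n : ℕ
  q : ℕ
  f : Fin m → ℤ[X]
  φ : Fin q → ℤ[X]
  G : Fin n → ℤ[X][X]
  hm : 0 < m
  hn : 0 < n
  f_monic : ∀ i, (f i).Monic
  f_irr : ∀ i, Irreducible (f i)
  f_inj : Function.Injective f
  φ_monic : ∀ k, (φ k).Monic
  φ_irr : ∀ k, Irreducible (φ k)
  φ_inj : Function.Injective φ
  f_φ : ∀ i k, f i ≠ φ k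
  G_monic : ∀ j, (G j).Monic
  G_irr : ∀ j, Irreducible (G j)
  G_inj : Function.Injective G
  f_simple : ∀ i j, ∃ α η : ℂ, aeval α (f i) = 0 ∧ ev α η (G j) = 0 ∧
    ev α η (derivative (G j)) ≠ 0
  φ_simple : ∀ k j, ∃ α η : ℂ, aeval α (φ k) = 0 ∧ ev α η (G j) = 0 ∧
    ev α η (derivative (G j)) ≠ 0

namespace Fac

variable (D : Fac)

/-- The polynomial `∏ f i * ∏ G j * H - 1`. -/
noncomputable def P (H : ℤ[X][X]) : ℤ[X][X] := (∏ i, C (D.f i)) * (∏ j, D.G j) * H - 1

/-- The first index of the `f i`. -/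
def i0 : Fin D.m := ⟨0, D.hm⟩

/-- The first index of the `G j`. -/
def j0 : Fin D.n := ⟨0, D.hn⟩

/-- `G j` and `G l` are congruent modulo `φ k`. -/
def Cong (k : Fin D.q) (j l : Fin D.n) : Prop := C (D.φ k) ∣ D.G j - D.G l

/-- The number of residue classes modulo `φ k` of the `G j`. -/
noncomputable def cls (k : Fin D.q) : ℕ :=
  (Set.range fun j => (D.G j).map (Ideal.Quotient.mk (Ideal.span {D.φ k}))).ncard

/-- The number of symbols: `(m - 1) * (n - 1) + ∑ (n - cls k)`. -/
noncomputable def rk : ℕ := (D.m - 1) * (D.n - 1) + ∑ k, (D.n - D.cls k)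

/-- The indices of the symbols: pairs `(i, j)` with `i, j` nonzero, and pairs `(k, j)` such that
`G j` is congruent modulo `φ k` to some `G l`, `l < j`. -/
abbrev Idx : Type :=
  {z : Fin D.m × Fin D.n // z.1 ≠ D.i0 ∧ z.2 ≠ D.j0} ⊕
    {z : Fin D.q × Fin D.n // ∃ l < z.2, D.Cong z.1 z.2 l}

/-- The factor of the main term of the regulator. -/
noncomputable def kap : D.Idx → ℕ
  | Sum.inl _ => (D.f D.i0).natDegree * (D.G D.j0).natDegree
  | Sum.inr _ => (D.f D.i0).natDegree

/-- `β` is the symbol with index `t`: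
`{f_i ^ deg f_0 / f_0 ^ deg f_i, G_j ^ deg G_0 / G_0 ^ deg G_j}` or
`{φ_k ^ deg f_0 / f_0 ^ deg φ_k, G_j / G_l}`, where `l` is the least index with
`G_l ≡ G_j mod φ_k` (the degrees of the `G` are those in `y`). -/
def IsSym {K : Type} [Field K] (x y : K) : D.Idx → K2 K → Prop
  | Sum.inl z, β => ∃ u w : Kˣ,
      (u : K) * aeval x (D.f D.i0) ^ (D.f z.1.1).natDegree =
        aeval x (D.f z.1.1) ^ (D.f D.i0).natDegree ∧
      (w : K) * ev x y (D.G D.j0) ^ (D.G z.1.2).natDegree =
        ev x y (D.G z.1.2) ^ (D.G D.j0).natDegree ∧ β = sym u w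
  | Sum.inr z, β => ∃ (u w : Kˣ) (l : Fin D.n), D.Cong z.1.1 z.1.2 l ∧
      (∀ l' < l, ¬ D.Cong z.1.1 z.1.2 l') ∧
      (u : K) * aeval x (D.f D.i0) ^ (D.φ z.1.1).natDegree =
        aeval x (D.φ z.1.1) ^ (D.f D.i0).natDegree ∧
      (w : K) * ev x y (D.G l) = ev x y (D.G z.1.2) ∧ β = sym u w

/-- `(α, η)` is one of the finitely many points with `f i = 0` or `φ k = 0`, and `G j = 0`, for
some `i` or `k` and some `j`. -/
def Pt (α η : ℂ) : Prop :=
  ((∃ i, aeval α (D.f i) = 0) ∨ ∃ k, aeval α (D.φ k) = 0) ∧ ∃ j, ev α η (D.G j) = 0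

end Fac

/-- The polynomial with the coefficients `c j i` at `x ^ i * y ^ j`. -/
noncomputable def Hc {d e : ℕ} (c : Fin (e + 1) → Fin (d + 1) → ℤ) : ℤ[X][X] :=
  ∑ j, ∑ i, C (C (c j i) * X ^ (i : ℕ)) * X ^ (j : ℕ)

/-- The largest absolute value of a coefficient. -/
noncomputable def ht {d e : ℕ} (c : Fin (e + 1) → Fin (d + 1) → ℤ) : ℝ :=
  ‖fun j i => (c j i : ℝ)‖

/-- The coefficients with absolute value at most `B`. -/
noncomputable def box (d e B : ℕ) : Finset (Fin (e + 1) → Fin (d + 1) → ℤ) :=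
  Fintype.piFinset fun _ => Fintype.piFinset fun _ => Finset.Icc (-(B : ℤ)) B

/-- The elements `α i` have linearly independent regulators: along suitable loops the determinant
of the regulators is nonzero. -/
def Indep {K : Type} [Field K] {r : ℕ} (α : Fin r → K2 K) : Prop :=
  ∃ γ : Fin r → Loop K, (Matrix.of fun i k => reg (γ k) (α i)).det ≠ 0

/-- For the function field over `ℚ` of the curve `∏ f i * ∏ G j * H = 1` the symbols `IsSym` have
linearly independent regulators (if this polynomial is irreducible over `ℚ`). -/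
def Good (D : Fac) (H : ℤ[X][X]) : Prop :=
  Irreducible (mapK ℚ (D.P H)) → ∀ (K : Type) [Field K] [Algebra ℚ K] (x y : K),
    IsCurveP ℚ K (D.P H) x y → ∃ (e' : Fin D.rk ≃ D.Idx) (α : Fin D.rk → K2 K),
      (∀ i, D.IsSym x y (e' i) (α i)) ∧ Indep α

/-- The symbols `α` (in the order `e'`) have, along suitable loops, regulators
`2 * π * kap * log Λ` on the diagonal and `0` off the diagonal, up to an error at most `E`, and the
determinant is nonzero. -/
def RegF {K : Type} [Field K] (D : Fac) (e' : Fin D.rk ≃ D.Idx) (α : Fin D.rk → K2 K)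
    (Λ E : ℝ) : Prop :=
  ∃ γ : Fin D.rk → Loop K,
    (∀ i k, |reg (γ k) (α i) -
      (if i = k then 2 * Real.pi * D.kap (e' i) * Real.log Λ else 0)| ≤ E) ∧
    (Matrix.of fun i k => reg (γ k) (α i)).det ≠ 0

end MP743d1e.FM
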