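import Pool.Agent.Lib.MP_743d1e_nt.FM.Spec
import Pool.Agent.Lib.MP_743d1e_nt.Kae

/-!
# KER: the polynomials that vanish at a generic point of an irreducible curve
-/

set_option autoImplicit false

namespace MP743d1e.FM

open Polynomial

namespace KER

open MP743d1e.Emb (ev2_C)

theorem ev2_mapK {k L : Type} [Field k] [Field L] [Algebra k L] (x y : L) (P : ℤ[X][X]) :
    ev2 x y (mapK k P) = ev x y P := by
  unfold ev2 mapK ev
  rw [eval₂_map, coe_eval₂RingHom]
  congr 1
  apply ringHom_ext
  · intro a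
    simp
  · simp

theorem dvd_of {k L : Type} [Field k] [Field L] [Algebra k L] {x y : L}
    (hx : Transcendental k x) {Q : k[X][X]} (hQ : Irreducible Q) (h0 : ev2 x y Q = 0)
    {S : k[X][X]} (hS : ev2 x y S = 0) : Q ∣ S := by
  classical
  have hinj : Function.Injective ((aeval x : k[X] →ₐ[k] L) : k[X] →+* L) :=
    transcendental_iff_injective.1 hx
  let ψ : FractionRing k[X] →+* L := IsFractionRing.lift hinj
  have hψ : ∀ p, ψ (algebraMap k[X] (FractionRing k[X]) p) = aeval x p := fun p =>
    IsFractionRing.lift_algebraMap hinj p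
  have hev : ∀ T : k[X][X],
      eval₂ ψ y (T.map (algebraMap k[X] (FractionRing k[X]))) = ev2 x y T := by
    intro T
    rw [eval₂_map]
    unfold ev2
    congr 1
    exact RingHom.ext hψ
  have hdeg : Q.natDegree ≠ 0 := by
    intro h
    have hC := eq_C_of_natDegree_eq_zero h
    rw [hC, ev2_C] at h0
    have h1 : Q.coeff 0 = 0 := hinj (h0.trans (map_zero _).symm)
    rw [h1, C_0] at hC
    exact hQ.ne_zero hC
  have hprim : Q.IsPrimitive := hQ.isPrimitive hdeg
  have hirr : Irreducible (Q.map (algebraMap k[X] (FractionRing k[X]))) :=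
    (hprim.irreducible_iff_irreducible_map_fraction_map).1 hQ
  by_contra hn
  have hnd : ¬ Q.map (algebraMap k[X] (FractionRing k[X])) ∣
      S.map (algebraMap k[X] (FractionRing k[X])) :=
    fun h => hn (hprim.dvd_of_fraction_map_dvd_fraction_map h)
  obtain ⟨a, b, hab⟩ := (hirr.coprime_iff_not_dvd).2 hnd
  have h2 := congrArg (eval₂ ψ y) hab
  rw [eval₂_add, eval₂_mul, eval₂_mul, hev, hev, h0, hS, mul_zero, mul_zero, add_zero,
    eval₂_one] at h2
  exact zero_ne_one h2

end KER

open KER in
/-- KER -/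
theorem specKER : SpecKER := by
  intro k _ _ P hP L _ _ x y hx h0 S
  have h1 : ev2 x y (mapK k P) = 0 := by rw [ev2_mapK, h0]
  constructor
  · intro h
    exact dvd_of hx hP h1 h
  · rintro ⟨T, rfl⟩
    rw [← MP743d1e.Emb.evh_apply, map_mul, MP743d1e.Emb.evh_apply, h1, zero_mul]

end MP743d1e.FM
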