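import Pool.Agent.Lib.MP_743d1e_nt.FM.Defs
import Pool.Agent.Lib.MP_743d1e_nt.Spec

/-!
# Exact statements of the modules of block FM (curves `∏ f i * ∏ G j * H = 1`, `H` arbitrary)

Module XXX = Lib/MP_743d1e_nt/FM/XXX.lean, `theorem MP743d1e.FM.specXXX (hYYY : SpecYYY) ... :
SpecXXX`. Polynomials in `x, y` are in `ℤ[X][X]` (outer variable `y`), `ev x y` evaluates them.
-/

set_option autoImplicit false

namespace MP743d1e.FM

open scoped BigOperators
open Polynomial Filter

/-- The circle of radius `ρ` around the complex number `α`. -/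
noncomputable def cir (α : ℂ) (ρ θ : ℝ) : ℂ := α + (ρ : ℂ) * Complex.exp (θ * Complex.I)

/-- `g` is one of the polynomials `f i`, `φ k`. -/
def Fac.IsX (D : Fac) (g : ℤ[X]) : Prop := (∃ i, g = D.f i) ∨ ∃ k, g = D.φ k

/-! ## Algebra -/

/-- INTF. The symbols are unramified.

Proof. Use `NN v`, `Pos v` and the lemmas of `Integ.lean` and `HY/INT.lean` (`nn_int`, `nn_add`,
`nn_mul`, ...). Let `v` be a `DVal`. Integers have `NN`. A monic integral polynomial `g` of degree
`a` has value `NN` at `x` if `NN v x`, and `g(x) / x ^ a` is a one-unit if `x` is a unit with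
`v.ord x < 0` (`g(x) / x^a - 1 = ∑_{b < a} c_b x^(b - a)` is `Pos`). Case 1: `v.ord x < 0`. Then
`u = (g / x^a)^(deg f_0) / (f_0 / x^(deg f_0))^a` is a one-unit, so `ord u = 0` and the tame unit
`u ^ ord w` (up to sign `(-1)^0`) is a one-unit, for every `w`. Case 2: `NN v x`, `v.ord y < 0`: the
same for the `G j`, which are monic in `y` with coefficients (polynomials in `x`) that are `NN`; so
`w` is a one-unit (in the second kind of symbol `deg G_j = deg G_l`, because `φ_k` is monic of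
positive degree and divides the polynomial `G_j - G_l` with coefficient `± 1` at the highest power
of `y` if the degrees differ). Case 3: `NN v x` and `NN v y`. All factors of
`∏ f i * ∏ G j * H = 1` are `NN`, so the `f i(x)` and `G j(x, y)` have order `0`. For the first kind
`ord u = ord w = 0`, the tame unit is `1`. For the second kind `ord w = 0`, `ord u = (deg f_0) *
ord φ_k(x) ≥ 0`; if it is `0` the tame unit is `1`; if it is positive then `φ_k(x)` is `Pos`,
`G_j - G_l = φ_k * S` gives `w - 1 = φ_k(x) S(x, y) / G_l(x, y)` `Pos`, so `w` is a one-unit and the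
tame unit is `w ^ (- ord u)`. (If `x = 0` or `y = 0` then `NN`.) Finally `tame v (sym u w)` is the
class of `tameUnit`, see `tame_sym`, `DVal.U1`, `DVal.mem_U1`. -/
def SpecINTF : Prop :=
  ∀ (D : Fac) (H : ℤ[X][X]) (K : Type) [Field K] (x y : K), ev x y (D.P H) = 0 →
    ∀ (t : D.Idx) (β : K2 K), D.IsSym x y t β → Unramified β

/-- KER. The polynomials that vanish at a generic point of an irreducible curve.

Proof. `Q = mapK k P`; `evh k x y Q = ev x y P = 0`. `Q` is not in `k[X]` (otherwise `x` would be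
algebraic), so `natDegree Q ≠ 0`, `Q` is primitive (`Irreducible.isPrimitive`) and irreducible over
the fraction field `k(X)` (`IsPrimitive.irreducible_iff_irreducible_map_fraction_map`). As `x` is
transcendental `aeval x : k[X] → L` is injective and extends to `ψ : FractionRing k[X] → L`
(`IsFractionRing.lift`). If `evh k x y S = 0` then `y` is a common root of the images of `Q` and `S`
under `ψ`; if `Q` did not divide `S` over `k(X)`, they would be coprime there, contradiction. So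
`Q ∣ S` over `k(X)`, and, `Q` being primitive, over `k[X]` (write `S = content * primPart`,
`IsPrimitive.dvd_of_fraction_map_dvd_fraction_map`). -/
def SpecKER : Prop :=
  ∀ (k : Type) [Field k] [CharZero k] (P : ℤ[X][X]), Irreducible (mapK k P) →
    ∀ (L : Type) [Field L] [Algebra k L] (x y : L), Transcendental k x → ev x y P = 0 →
      ∀ S : k[X][X], ev2 x y S = 0 ↔ mapK k P ∣ S

/-- EMBF. A closed path on the curve with transcendental abscissas is a `Loop`.

Proof. As `Emb.lean` (`Emb.lift_aux`, `Emb.adjoin_le_range`, `specEmb`) with `Emb.dvd_iff` replaced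
by KER. -/
def SpecEMBF : Prop :=
  ∀ (P : ℤ[X][X]), Irreducible (mapK ℚ P) → ∀ (K : Type) [Field K] [Algebra ℚ K] (x y : K),
    IsCurveP ℚ K P x y → ∀ A B : ℝ → ℂ, ContDiff ℝ 1 A → ContDiff ℝ 1 B →
      (∀ θ, A (θ + 2 * Real.pi) = A θ) → (∀ θ, B (θ + 2 * Real.pi) = B θ) →
      (∀ θ, Transcendental ℚ (A θ)) → (∀ θ, ev (A θ) (B θ) P = 0) →
      ∃ γ : Loop K, ∀ θ, γ.ev θ x = A θ ∧ γ.ev θ y = B θ

/-- EXF. Existence of the function field.

Proof. `K` is the fraction field of `k[X][X] / (mapK k P)` (a prime ideal), `x`, `y` the images of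
`C X`, `X`. `x` is transcendental: a nonzero polynomial in `x` is not divisible by a polynomial of
positive degree in `y`. -/
def SpecEXF : Prop :=
  ∀ (k : Type) [Field k] [CharZero k] (P : ℤ[X][X]), Irreducible (mapK k P) →
    0 < (mapK k P).natDegree →
      ∃ (K : Type) (_ : Field K) (_ : Algebra k K) (x y : K), IsCurveP k K P x y

/-- CQF. Constants of the function field.

Proof. Let `z` be algebraic over `ℚ`, `k = ℚ(z)` (an intermediate field of `K`). `K = k(x, y)` and
`IsCurveP k K P x y` (`x` is transcendental over `k`). As `mapK k P` is irreducible, it is up to a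
factor the minimal polynomial of `y` over `k(x)` (see KER), so `[K : k(x)] = deg_y P`, and
`[K : ℚ(x)] = deg_y P` in the same way. So `k(x) = ℚ(x)` and `z ∈ ℚ(x)` is algebraic over `ℚ`, hence
in `ℚ` (`AlgCl.lean` does the same for arrangements). -/
def SpecCQF : Prop :=
  ∀ (P : ℤ[X][X]), (∀ (k : Type) [Field k] [CharZero k], Irreducible (mapK k P)) →
    ∀ (K : Type) [Field K] [Algebra ℚ K] (x y : K), IsCurveP ℚ K P x y → ConstQ K

/-- IRG. Irreducibility for graphs `y = P_j(x)`.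

Proof. `G_j` monic of degree `1` in `y`: `G_j = y - P_j`, the `P_j ∈ ℤ[x]` are distinct, also in
`k[x]`. Let `A = ∏ f i`, `P = A * ∏ (y - P_j) * H - 1` and `P = R * S` over `k`, no factor a unit.
`deg_y P = n + deg_y H < 2 n`, so we may assume `deg_y R < n`. At `y = P_j` the product `R * S` is
`-1`, so `R(x, P_j) = c_j` is a nonzero constant. Modulo an irreducible factor `g` of `f_0` in
`k[x]` (`f_0` is monic of positive degree) `R * S = -1` in `(k[x]/g)[y]`, so `R mod g` is a constant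
`e ∈ k[x]/g`, and `c_j = e` in `k[x]/g` for all `j`; as `k → k[x]/g` is injective all `c_j` are
equal to one `c`. `R - c` has degree `< n` in `y` (or is `0`; note `n ≥ 1`) and the `n` distinct
roots `P_j` in the domain `k[x]`, so `R = c` is a unit, contradiction. `P` is not a unit and not
zero: its degree in `y` is `n + deg_y H > 0`. -/
def SpecIRG : Prop :=
  ∀ (D : Fac), (∀ j, (D.G j).natDegree = 1) → ∀ H : ℤ[X][X], H ≠ 0 → H.natDegree < D.n →
    ∀ (k : Type) [Field k] [CharZero k], Irreducible (mapK k (D.P H)) ∧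
      0 < (mapK k (D.P H)).natDegree

/-- CARD. The number of symbols.

Proof. For each `k` the map `j ↦ G j mod φ k` has `cls k` values; the `j` which are not the least
index of their class are the `j` with some `l < j`, `Cong k j l` (`C (φ k) ∣ S` iff `S` maps to `0`
in `(ℤ[X] / φ k)[X]`), their number is `n - cls k`. -/
def SpecCARD : Prop := ∀ D : Fac, Nonempty (Fin D.rk ≃ D.Idx)

/-- SYMF. The symbols exist.

Proof. `aeval x (f i)` and `ev x y (G j)` are nonzero because their product times `ev x y H` is `1`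
(`ev x y (C g) = aeval x g`); `aeval x (φ k) ≠ 0` because `x` is transcendental. The least index
exists by well-ordering. -/
def SpecSYMF : Prop :=
  ∀ (D : Fac) (H : ℤ[X][X]) (K : Type) [Field K] [Algebra ℚ K] (x y : K),
    IsCurveP ℚ K (D.P H) x y → ∀ t : D.Idx, ∃ β : K2 K, D.IsSym x y t β

/-! ## Analysis -/

/-- SHF. Existence of a smooth closed family of zeros.

Proof. For fixed `θ` the map `T y = y - F(θ, y) / a θ` has derivative of norm `≤ 1 / 2` on the
closed ball of radius `r` around `y0 θ`, so it is a contraction of this ball (`‖T (y0) - y0‖ ≤ r/4`)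
and has exactly one fixed point `Y θ` there, with `‖Y θ - y0 θ‖ ≤ 2 ‖F(θ, y0 θ)‖ / ‖a θ‖ ≤ r/2`.
(As `Sheet.exists_root`.) Periodicity by uniqueness. Smoothness: at `θ₀` the implicit function
theorem (`ContDiffAt.implicitFunction` as in `LA/SHL.lean`) gives a `C¹` solution near `θ₀` with
the value `Y θ₀`, which by continuity stays in the open balls of radius `r` around `y0 θ`, so it is
equal to `Y`. -/
def SpecSHF : Prop :=
  ∀ (F F' : ℝ × ℂ → ℂ) (y0 a : ℝ → ℂ) (r : ℝ), ContDiff ℝ 1 F →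
    (∀ z : ℝ × ℂ, HasDerivAt (fun v => F (z.1, v)) (F' z) z.2) →
    (∀ z : ℝ × ℂ, F (z.1 + 2 * Real.pi, z.2) = F z) → Continuous y0 →
    (∀ θ, y0 (θ + 2 * Real.pi) = y0 θ) → 0 < r → (∀ θ, a θ ≠ 0) →
    (∀ θ y, ‖y - y0 θ‖ ≤ r → ‖F' (θ, y) - a θ‖ ≤ ‖a θ‖ / 2) →
    (∀ θ, ‖F (θ, y0 θ)‖ ≤ ‖a θ‖ * r / 4) →
      ∃ Y : ℝ → ℂ, ContDiff ℝ 1 Y ∧ (∀ θ, Y (θ + 2 * Real.pi) = Y θ) ∧
        (∀ θ, F (θ, Y θ) = 0) ∧ ∀ θ, ‖Y θ - y0 θ‖ ≤ 2 * ‖F (θ, y0 θ)‖ / ‖a θ‖

/-- SH1. The sheet `G = 0` near a point with `∂G/∂y ≠ 0`.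

Proof. Implicit function theorem over `ℂ` for the polynomial function `(x, y) ↦ ev x y G`; the
solution is differentiable at `α`, so `‖y0 x - η‖ ≤ C ‖x - α‖` near `α`. -/
def SpecSH1 : Prop :=
  ∀ (G : ℤ[X][X]) (α η : ℂ), ev α η G = 0 → ev α η (derivative G) ≠ 0 →
    ∃ (ρ C : ℝ) (y0 : ℂ → ℂ), 0 < ρ ∧ y0 α = η ∧ ContDiffOn ℂ 1 y0 (Metric.ball α ρ) ∧
      ∀ x ∈ Metric.ball α ρ, ev x (y0 x) G = 0 ∧ ‖y0 x - η‖ ≤ C * ‖x - α‖ ∧
        ev x (y0 x) (derivative G) ≠ 0

/-- NZF. The other factors do not vanish on the sheet near `α`.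

Proof. The nonzero polynomials `f i`, `φ k` have finitely many roots. For `l ≠ j` the distinct monic
(in `y`) irreducible polynomials `G j`, `G l` are coprime over `ℚ(x)`: there are `A, B ∈ ℤ[X][X]`
and `0 ≠ r ∈ ℤ[X]` with `A G_j + B G_l = C r`; so `G_l(x, y) ≠ 0` if `G_j(x, y) = 0` and
`r(x) ≠ 0`. -/
def SpecNZF : Prop :=
  ∀ (D : Fac) (j : Fin D.n) (α : ℂ), ∃ ρ : ℝ, 0 < ρ ∧ ∀ x : ℂ, x ≠ α → ‖x - α‖ < ρ →
    (∀ g : ℤ[X], D.IsX g → aeval x g ≠ 0) ∧
    ∀ y : ℂ, ev x y (D.G j) = 0 → ∀ l, l ≠ j → ev x y (D.G l) ≠ 0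

/-- The sheet of the curve with the coefficients `c` near `G j = 0` over a circle, with bounds that
do not depend on `c`. -/
structure IsSh (D : Fac) {d e : ℕ} (c : Fin (e + 1) → Fin (d + 1) → ℤ) (j : Fin D.n) (α : ℂ)
    (ρ C : ℝ) (Y : ℝ → ℂ) : Prop where
  smooth : ContDiff ℝ 1 Y
  periodic : ∀ θ, Y (θ + 2 * Real.pi) = Y θ
  eqn : ∀ θ, ev (cir α ρ θ) (Y θ) (D.P (Hc c)) = 0
  other : ∀ l, l ≠ j → ∀ θ, 1 / C ≤ ‖ev (cir α ρ θ) (Y θ) (D.G l)‖ ∧
    ‖ev (cir α ρ θ) (Y θ) (D.G l)‖ ≤ C ∧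
    ‖deriv (fun t => ev (cir α ρ t) (Y t) (D.G l)) θ‖ ≤ C
  main : ∀ θ, 1 / C ≤ ht c * ‖ev (cir α ρ θ) (Y θ) (D.G j)‖ ∧
    ht c * ‖ev (cir α ρ θ) (Y θ) (D.G j)‖ ≤ C ∧
    ht c * ‖deriv (fun t => ev (cir α ρ t) (Y t) (D.G j)) θ‖ ≤ C

/-- YF. The sheets of the curves over a circle.

Proof. Let `y0`, `ρ₀`, `C₀` be as in SH1 for `G j`. Let `c` be real coefficients with norm `≤ 1`
and `H_c` the corresponding function; `K0 = ∏ f i * ∏_{l ≠ j} G l`. For `‖x - α‖ ≤ ρ` small (in
terms of `ε`) `|H_c(x, y0 x) - H_c(α, η)| ≤ ε / 2` for all such `c`. So there is `ρ₁` such that for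
`0 < ρ < ρ₁` on the circle `‖x - α‖ = ρ`: `K0(x, y0 x) ≠ 0` (NZF), `∂G_j/∂y (x, y0 x) ≠ 0`, and
`|H_c(x, y0 x)| ≥ ε / 2` if `|H_c(α, η)| ≥ ε`. Take any such `ρ` with `Rad α ρ`. The set `𝒞` of real
`c`, `‖c‖ ≤ 1`, `|H_c(α, η)| ≥ ε` is compact. For an integral `c` (`ht c` large) put `c' = c / ht c`
in `𝒞`, `s = 1 / ht c`. Apply SHF to `F(θ, y) = G_j * K0 * H_{c'} - s` at `x = cir α ρ θ`,
`y0 θ = y0 (cir α ρ θ)`, `a θ = ∂G_j/∂y * K0 * H_{c'}` at `(cir α ρ θ, y0)`: by compactness of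
`[0, 2π] × 𝒞` there is `c₁ > 0` with `|a θ| ≥ c₁`, and by uniform continuity of `F'` on the compact
set `{θ ∈ [0, 2π], c' ∈ 𝒞, |y - y0| ≤ 1}` there is `r`, independent of `c'`, with
`‖F' - a‖ ≤ c₁ / 2` (`F' (θ, y0) = a θ` because `G_j = 0` there); `‖F (θ, y0)‖ = s ≤ c₁ r / 4` for
large `ht c`; also take `r` so small that `K0 * H_{c'}` and the `G l`, `l ≠ j`, are at least half
of their values at `y0` in absolute value for `|y - y0| ≤ r`. The bounds for the `G l` and their
derivatives: `Y' = - F_θ / F_y` is bounded because `|F_y| ≥ c₁ / 2`, and everything stays in a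
compact set. `main`: `G_j = s / (K0 H_{c'})`. -/
def SpecYF : Prop :=
  ∀ (D : Fac) (d e : ℕ) (ε : ℝ) (j : Fin D.n) (α η : ℂ), 0 < ε → ev α η (D.G j) = 0 →
    ev α η (derivative (D.G j)) ≠ 0 → ∃ ρ₁ : ℝ, 0 < ρ₁ ∧ ∀ ρ : ℝ, 0 < ρ → ρ < ρ₁ →
      ∃ C B : ℝ, 0 < C ∧ 1 ≤ B ∧ ∀ c : Fin (e + 1) → Fin (d + 1) → ℤ, B ≤ ht c →
        ε * ht c ≤ ‖ev α η (Hc c)‖ → ∃ Y : ℝ → ℂ, IsSh D c j α ρ C Y

/-- RADF. Radii of circles that avoid the algebraic numbers.

Proof. The radii `|β - α|`, `β` algebraic, are countable. -/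
def SpecRADF : Prop :=
  ∀ (α : ℂ) (ρ₁ : ℝ), 0 < ρ₁ → ∃ ρ : ℝ, 0 < ρ ∧ ρ < ρ₁ ∧ ∀ θ, Transcendental ℚ (cir α ρ θ)

/-- WND. The winding number of an irreducible polynomial on a small circle.

Proof. `g = ∏ (x - β)` over `ℂ` with simple roots (`g` is irreducible over `ℚ`, so separable). For
`ρ` smaller than the distance of `α` to all roots `≠ α`, the logarithmic derivative is
`∑ x_θ' / (x_θ - β)` and the integral of `x_θ' / (x_θ - β)` is `2 π i` for `β = α` and `0` otherwise
(`circleIntegral`: `circleIntegral.integral_sub_inv_of_mem_ball` and Cauchy's theorem). -/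
def SpecWND : Prop :=
  ∀ (g : ℤ[X]) (α : ℂ), g.Monic → Irreducible g → ∃ ρ₁ : ℝ, 0 < ρ₁ ∧ ∀ ρ : ℝ, 0 < ρ → ρ < ρ₁ →
    ∫ θ in (0 : ℝ)..(2 * Real.pi), (deriv (fun t => aeval (cir α ρ t) g) θ /
      aeval (cir α ρ θ) g).im = if aeval α g = 0 then 2 * Real.pi else 0

/-- REGE. The regulator integrals.

Proof. Let `ρ` be smaller than the radii of NZF and WND (for all `g`), `u = g(x_θ)`, a fixed
nonvanishing `C¹` function, so `log|u|` and `u'/u` are bounded. For `l ≠ j`, `w = G_l(x_θ, Y θ)`: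
`|log|w||` and `|w'/w|` are bounded by `IsSh.other`, so the integral is bounded. For `l = j`:
`w'/w` is bounded and `log|w| = - log (ht c) + O(1)`, so the integral is
`O(1) + log (ht c) * ∫ Im (u'/u)`. -/
def SpecREGE : Prop :=
  ∀ (D : Fac) (α : ℂ), ∃ ρ₁ : ℝ, 0 < ρ₁ ∧ ∀ (ρ C : ℝ) (d e : ℕ), 0 < ρ → ρ < ρ₁ → 0 < C →
    ∃ E : ℝ, ∀ (j : Fin D.n) (c : Fin (e + 1) → Fin (d + 1) → ℤ) (Y : ℝ → ℂ), 1 ≤ ht c →
      IsSh D c j α ρ C Y → ∀ (g : ℤ[X]) (l : Fin D.n), D.IsX g →
        |regInt (fun θ => aeval (cir α ρ θ) g) (fun θ => ev (cir α ρ θ) (Y θ) (D.G l)) -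
          (if l = j ∧ aeval α g = 0 then 2 * Real.pi * Real.log (ht c) else 0)| ≤ E

/-- DETF. Strictly diagonally dominant matrices.

Proof. The row sums of the off-diagonal entries are at most `r * E`, the diagonal entries are larger
than `r * E`: `det_ne_zero_of_sum_row_lt_diag`. -/
def SpecDETF : Prop :=
  ∀ (r : ℕ) (κ : Fin r → ℕ) (E : ℝ), (∀ i, 1 ≤ κ i) → ∃ L : ℝ, ∀ Λ : ℝ, L ≤ Λ →
    ∀ M : Matrix (Fin r) (Fin r) ℝ,
      (∀ i k, |M i k - (if i = k then 2 * Real.pi * κ i * Real.log Λ else 0)| ≤ E) → M.det ≠ 0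

/-- ASF. The main theorem.

Proof. For each index `s` choose `(α_s, η_s)` from `f_simple`, `φ_simple` (for the polynomial `f i`
or `φ k` and the `G j` of `s`), `ρ_s` below the radii of YF and REGE with RADF, and the sheet `Y_s`
from YF with `j` = the second component of `s`; EMBF makes it a loop `γ_s`. For a symbol `β` with
index `t`, write `u`, `w` through the units `g(x)`, `G_l(x, y)`; by bilinearity (`sym_mul_left`, ...,
`reg_eq`, `Stein`) `reg (γ_s) β` is the combination of the `regInt` of REGE. The main terms: the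
abscissa `α_s` is a root of exactly one of the `f i`, `φ k` (distinct monic irreducible polynomials
have no common complex root), the one of `s`. So a symbol with index `t` has a main term along
`γ_s` only if the polynomial of `s` (not `f 0`, because `i ≠ 0`) is the one of `t`, with the factor
`deg f_0` times the exponent of `G_j` (`j` of `s`) in `w`. For `t`, `s` of the first kind this
exponent is `deg G_0` if the `j` agree and `0` otherwise (`j ≠ 0`). For the second kind it is `1` if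
the `j` agree; `G_l` with the least index `l` of the class is never the `G_j` of an index `s`, as
`s` would require a smaller congruent index. So the matrix is diagonal up to `O(1)`, with
the entries `2 π kap log (ht c)`, and DETF gives the determinant. (Take `Fin D.rk ≃ D.Idx` from CARD
and the symbols from SYMF; the bound `E` is a maximum over the finitely many pairs.) -/
def SpecASF : Prop :=
  ∀ (D : Fac) (d e : ℕ) (ε : ℝ), 0 < ε → ∃ E B : ℝ, ∀ c : Fin (e + 1) → Fin (d + 1) → ℤ,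
    B ≤ ht c → (∀ α η, D.Pt α η → ε * ht c ≤ ‖ev α η (Hc c)‖) →
    Irreducible (mapK ℚ (D.P (Hc c))) → ∀ (K : Type) [Field K] [Algebra ℚ K] (x y : K),
      IsCurveP ℚ K (D.P (Hc c)) x y →
        ∃ (e' : Fin D.rk ≃ D.Idx) (α : Fin D.rk → K2 K), (∀ i, D.IsSym x y (e' i) (α i)) ∧
          RegF D e' α (ht c) E

/-! ## Density -/

/-- DENF. Almost all coefficient vectors satisfy the condition of ASF.

Proof. The set of points `Pt` is finite (finitely many `α`; for each the polynomials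
`G j (α, ·)` are monic); let `z` be their number. `c` is good if `ht c ≥ B₀` and
`|H_c(α, η)| ≥ ε ht c` for all `Pt α η`. Fix all coefficients but `c 0 0`; for `|c 0 0| ≤ B` the
condition `|H_c(α, η)| < ε B` holds for at most `2 ε B + 1` values of `c 0 0` (`H_c(α, η) = c 0 0 +
w`). So the number of `c ∈ box d e B` which are not good is at most
`(2 B₀ + 1)^N + z (2 ε B + 1) (2 B + 1)^(N - 1)`, `N = (d + 1)(e + 1)`, `(2 B + 1)^N` being the
cardinality of the box. So the upper density of the complement is at most `z ε` for every `ε`. -/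
def SpecDENF : Prop :=
  ∀ (D : Fac) (d e : ℕ) (S : (Fin (e + 1) → Fin (d + 1) → ℤ) → Prop),
    (∀ ε : ℝ, 0 < ε → ∃ B : ℝ, ∀ c, B ≤ ht c →
      (∀ α η, D.Pt α η → ε * ht c ≤ ‖ev α η (Hc c)‖) → S c) →
    Tendsto (fun B : ℕ => (({c ∈ (box d e B : Set (Fin (e + 1) → Fin (d + 1) → ℤ)) | S c}.ncard : ℝ) /
      ((box d e B).card : ℝ))) atTop (nhds 1)

/-! ## Genus bound -/

/-- EUL. Euler's dual basis: the polynomials `b_i = ∑_{l > i} c_l y^(l - i - 1)`.

Proof. Let `Q = ∑ c_l y^l ∈ ℂ[X][X]` be irreducible of degree `N ≥ 1` in `y` and `K = ℂ(x, y)`,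
`Q(x, y) = 0`. The trace form of `K / ℂ(x)` satisfies `Tr (y^l b_i / Q_y) = δ_il` (Mathlib: the dual
basis of the power basis, `traceForm_dualBasis_powerBasis_eq`, for `minpoly = Q / c_N`, `minpolyDiv`,
whose coefficients are the `b_i / c_N`). So `a = ∑ Tr (a b_i / Q_y) y^i` for every `a`, in
particular for `a = f Q_y`. -/
def SpecEUL : Prop :=
  ∀ (Q : ℂ[X][X]), Irreducible Q → ∀ (K : Type) [Field K] [Algebra ℂ K] (x y : K),
    Transcendental ℂ x → IntermediateField.adjoin ℂ {x, y} = ⊤ → ev2 x y Q = 0 →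
      FiniteDimensional (Ct x) K ∧ ev2 x y (derivative Q) ≠ 0 ∧ ∀ f : K,
        f * ev2 x y (derivative Q) = ∑ i ∈ Finset.range Q.natDegree,
          ((Algebra.trace (Ct x) K (f * ∑ l ∈ Finset.Ioc i Q.natDegree,
            aeval x (Q.coeff l) * y ^ (l - i - 1)) : Ct x) : K) * y ^ i

/-- BIN. The elements `b_i` are integral over `ℂ[x]`.

Proof. Let `V` be a valuation ring of `K` with `ℂ ⊆ V`, `x ∈ V`. If `y ∈ V` then `b_i ∈ V`. If
`y ∉ V`, then `y⁻¹ ∈ V` and `b_i = ∑_{l > i} c_l y^(l - i - 1) = - ∑_{l ≤ i} c_l y^(l - i - 1)`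
(as `Q(x, y) y^(- i - 1) = 0`), where all exponents are negative. -/
def SpecBIN : Prop :=
  ∀ (Q : ℂ[X][X]) (K : Type) [Field K] [Algebra ℂ K] (x y : K), ev2 x y Q = 0 → y ≠ 0 →
    ∀ V : ValuationSubring K, OverC V → x ∈ V → ∀ i,
      (∑ l ∈ Finset.Ioc i Q.natDegree, aeval x (Q.coeff l) * y ^ (l - i - 1)) ∈ V

/-- GEN. The genus of a plane curve of bidegree `(M, N)` is at most `(M - 1) * (N - 1)`.

Proof. Let `Q` be an irreducible factor over `ℂ` of `mapK ℂ P` with `Q(x, y) = 0`; the degrees of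
`Q` are at most those of `P`. If `y = 0` or `Q` has degree `0` in `x` (then `y ∈ ℂ`) then
`K = ℂ(x)` and there are no regular differentials (also covered by the argument below with `N = 1`
if `deg_y Q = 1`). By KAE the regular differentials are the space `S` of the `f` with `Reg δ f`,
`δ x = 1` (DER). For `f ∈ S` put `p_i = Tr (f b_i)`. (1) `p_i = aeval x (polynomial)` by the first
part of TRACE, because `f b_i` is regular at all `V` with `x ∈ V` (BIN; `RegD` is stable under
multiplication by elements of `V`). (2) `deg p_i ≤ M - 2` if `M = deg_x Q`: let `t = x⁻¹` and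
`δ' = - x² δ`, so `δ' t = 1`; `f' = - x² f` satisfies `RegD δ' V f'` for all `V`, and the elements
`x^(-M) b_i` lie in every `V` with `t ∈ V` (BIN for the polynomial `t^M Q(1/t, y)`); so by TRACE
`Tr (- x² f x^(-M) b_i) = - x^(2 - M) p_i` is a polynomial in `x⁻¹`. (So `p_i = 0` if `M ≤ 1`.)
(3) `p_(N-1) = Tr (f c_N) = c_N Tr f = 0` by the second part of TRACE. By EUL
`f Q_y = ∑_{i ≤ N - 2} p_i y^i`, so `f ↦ (p_i)` is an injective linear map from `S` to a space of
dimension `(M - 1) (N - 1)`. -/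
def SpecGENF : Prop :=
  ∀ (P : ℤ[X][X]) (M : ℕ), P ≠ 0 → (∀ l, (P.coeff l).natDegree ≤ M) →
    ∀ (K : Type) [Field K] [Algebra ℂ K] (x y : K), IsCurveP ℂ K P x y →
      FiniteDimensional ℂ (regDiff K) ∧
        Module.finrank ℂ (regDiff K) ≤ (M - 1) * (P.natDegree - 1)

end MP743d1e.FM
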